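import Pool.Agent.Helper8.UN.Stmts

/-! # UPC: recolouring one vertex -/

set_option autoImplicit false

open Finset

namespace Pool.Agent.Helper8.UN

theorem upc_mem {n : ℕ} {E : Finset (Finset (Fin n))} {W : Finset (Fin n)} {k : ℕ}
    {f : Fin n → ℕ} : f ∈ CC E W k ↔
      ((∀ v ∈ W, f v ∈ Finset.Icc 1 k) ∧ (∀ v, v ∉ W → f v = 0)) ∧ Prp E W f := by
  simp only [CC, Finset.mem_filter, Fintype.mem_piFinset]
  refine and_congr_left fun _ => ?_
  constructor
  · intro h
    refine ⟨fun v hv => ?_, fun v hv => ?_⟩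
    · have := h v
      rwa [if_pos hv] at this
    · have := h v
      rwa [if_neg hv, Finset.mem_singleton] at this
  · rintro ⟨h1, h2⟩ v
    by_cases hv : v ∈ W
    · rw [if_pos hv]
      exact h1 v hv
    · rw [if_neg hv, Finset.mem_singleton]
      exact h2 v hv

theorem upc_up {n : ℕ} (f : Fin n → ℕ) (y : Fin n) (i : ℕ) {v : Fin n} (h : v ≠ y) :
    Function.update f y i v = f v := Function.update_of_ne h i f

/-- the edges through `y` -/
theorem upc_prp {n : ℕ} {E : Finset (Finset (Fin n))} {W : Finset (Fin n)}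
    {f : Fin n → ℕ} {y : Fin n} {i : ℕ}
    (hoff : ∀ e ∈ E, e ⊆ W → y ∉ e → ∃ u ∈ e, ∃ v ∈ e, f u ≠ f v) :
    Prp E W (Function.update f y i) ↔ ¬ Blk E W f y i := by
  constructor
  · rintro h ⟨e, he, heW, hy, hc⟩
    obtain ⟨u, hu, v, hv, huv⟩ := h e he heW
    apply huv
    have key : ∀ w ∈ e, Function.update f y i w = i := by
      intro w hw
      by_cases hwy : w = y
      · rw [hwy, Function.update_self]
      · rw [upc_up f y i hwy]
        exact hc w hw hwy
    rw [key u hu, key v hv]
  · intro h e he heW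
    by_cases hy : y ∈ e
    · by_contra hcon
      push Not at hcon
      apply h
      refine ⟨e, he, heW, hy, fun u hu huy => ?_⟩
      have h1 := hcon u hu y hy
      rwa [Function.update_self, upc_up f y i huy] at h1
    · obtain ⟨u, hu, v, hv, huv⟩ := hoff e he heW hy
      refine ⟨u, hu, v, hv, ?_⟩
      have hu' : u ≠ y := fun h => hy (h ▸ hu)
      have hv' : v ≠ y := fun h => hy (h ▸ hv)
      rw [upc_up f y i hu', upc_up f y i hv']
      exact huv

theorem st_UPC : ST_UPC := by
  intro n k E W f y i _ hy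
  have hsub : ∀ e : Finset (Fin n), e ⊆ W → y ∉ e → e ⊆ W.erase y := by
    intro e he hye w hw
    rw [Finset.mem_erase]
    exact ⟨fun h => hye (h ▸ hw), he hw⟩
  refine ⟨?_, ?_⟩
  · intro hf
    -- common facts
    have h1 : ∀ v ∈ W, v ≠ y → f v ∈ Finset.Icc 1 k := by
      rcases hf with hf | hf
      · exact fun v hv _ => (upc_mem.1 hf).1.1 v hv
      · exact fun v hv hvy => (upc_mem.1 hf).1.1 v (Finset.mem_erase.2 ⟨hvy, hv⟩)
    have h2 : ∀ v, v ∉ W → f v = 0 := by
      rcases hf with hf | hf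
      · exact fun v hv => (upc_mem.1 hf).1.2 v hv
      · exact fun v hv => (upc_mem.1 hf).1.2 v (fun h => hv (Finset.mem_of_mem_erase h))
    have h3 : ∀ e ∈ E, e ⊆ W → y ∉ e → ∃ u ∈ e, ∃ v ∈ e, f u ≠ f v := by
      rcases hf with hf | hf
      · exact fun e he heW _ => (upc_mem.1 hf).2 e he heW
      · exact fun e he heW hye => (upc_mem.1 hf).2 e he (hsub e heW hye)
    rw [upc_mem, upc_prp h3]
    refine and_congr_left fun _ => ?_
    constructor
    · rintro ⟨g1, -⟩
      have := g1 y hy
      rwa [Function.update_self] at this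
    · intro hi
      refine ⟨fun v hv => ?_, fun v hv => ?_⟩
      · by_cases hvy : v = y
        · rw [hvy, Function.update_self]
          exact hi
        · rw [upc_up f y i hvy]
          exact h1 v hv hvy
      · have hvy : v ≠ y := fun h => hv (h ▸ hy)
        rw [upc_up f y i hvy]
        exact h2 v hv
  · intro hf
    obtain ⟨⟨h1, h2⟩, h3⟩ := upc_mem.1 hf
    rw [upc_mem]
    refine ⟨⟨fun v hv => ?_, fun v hv => ?_⟩, ?_⟩
    · obtain ⟨hvy, hvW⟩ := Finset.mem_erase.1 hv
      rw [upc_up f y 0 hvy]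
      exact h1 v hvW
    · by_cases hvy : v = y
      · rw [hvy, Function.update_self]
      · rw [upc_up f y 0 hvy]
        exact h2 v (fun h => hv (Finset.mem_erase.2 ⟨hvy, h⟩))
    · intro e he heW
      obtain ⟨u, hu, v, hv, huv⟩ := h3 e he (heW.trans (Finset.erase_subset _ _))
      refine ⟨u, hu, v, hv, ?_⟩
      rw [upc_up f y 0 (Finset.mem_erase.1 (heW hu)).1,
        upc_up f y 0 (Finset.mem_erase.1 (heW hv)).1]
      exact huv

end Pool.Agent.Helper8.UN
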