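import Pool.Agent.Helper8.UN.Stmts

/-! # UPS: recolouring one vertex, all colours used -/

set_option autoImplicit false

open Finset

namespace Pool.Agent.Helper8.UN

theorem ups_mem {n : ℕ} {E : Finset (Finset (Fin n))} {W : Finset (Fin n)} {k : ℕ}
    {f : Fin n → ℕ} : f ∈ SS E W k ↔ f ∈ CC E W k ∧ ∀ i ∈ Finset.Icc 1 k, ∃ v ∈ W, f v = i := by
  simp only [SS, Finset.mem_filter]

theorem ups_icc {n : ℕ} {E : Finset (Finset (Fin n))} {W : Finset (Fin n)} {k : ℕ}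
    {f : Fin n → ℕ} (h : f ∈ CC E W k) {v : Fin n} (hv : v ∈ W) : f v ∈ Finset.Icc 1 k := by
  simp only [CC, Finset.mem_filter, Fintype.mem_piFinset] at h
  have := h.1 v
  rwa [if_pos hv] at this

theorem ups_up {n : ℕ} (f : Fin n → ℕ) (y : Fin n) (i : ℕ) {v : Fin n} (h : v ≠ y) :
    Function.update f y i v = f v := Function.update_of_ne h i f

theorem st_UPS (hUPC : ST_UPC) : ST_UPS := by
  intro n k E W f y i hT hy
  have hU := hUPC n k E W f y
  refine ⟨?_, ?_, ?_⟩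
  · rintro hf ⟨z, hz, hzy, hfz⟩
    obtain ⟨hf1, hf2⟩ := ups_mem.1 hf
    -- all colours are used off `y`
    have key : ∀ j ∈ Finset.Icc 1 k, ∃ v ∈ W, v ≠ y ∧ f v = j := by
      intro j hj
      obtain ⟨v, hv, hvj⟩ := hf2 j hj
      by_cases hvy : v = y
      · exact ⟨z, hz, hzy, by rw [hfz, ← hvy, hvj]⟩
      · exact ⟨v, hv, hvy, hvj⟩
    refine ⟨?_, ?_⟩
    · rw [← (hU i hT hy).1 (Or.inl hf1), ups_mem]
      refine ⟨fun h => h.1, fun h => ⟨h, fun j hj => ?_⟩⟩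
      obtain ⟨v, hv, hvy, hvj⟩ := key j hj
      exact ⟨v, hv, by rw [ups_up f y i hvy]; exact hvj⟩
    · rw [ups_mem]
      refine ⟨(hU 0 hT hy).2 hf1, fun j hj => ?_⟩
      obtain ⟨v, hv, hvy, hvj⟩ := key j hj
      exact ⟨v, Finset.mem_erase.2 ⟨hvy, hv⟩, by rw [ups_up f y 0 hvy]; exact hvj⟩
  · intro hf hs
    obtain ⟨hf1, hf2⟩ := ups_mem.1 hf
    constructor
    · intro h
      obtain ⟨h1, h2⟩ := ups_mem.1 h
      obtain ⟨v, hv, hvj⟩ := h2 (f y) (ups_icc hf1 hy)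
      by_cases hvy : v = y
      · rw [hvy, Function.update_self] at hvj
        exact hvj
      · rw [ups_up f y i hvy] at hvj
        exact absurd hvj (hs v hv hvy)
    · intro h
      rw [h, Function.update_eq_self]
      exact hf
  · intro hf
    obtain ⟨hf1, hf2⟩ := ups_mem.1 hf
    rw [← (hU i hT hy).1 (Or.inr hf1), ups_mem]
    refine ⟨fun h => h.1, fun h => ⟨h, fun j hj => ?_⟩⟩
    obtain ⟨v, hv, hvj⟩ := hf2 j hj
    obtain ⟨hvy, hvW⟩ := Finset.mem_erase.1 hv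
    exact ⟨v, hvW, by rw [ups_up f y i hvy]; exact hvj⟩

end Pool.Agent.Helper8.UN
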