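import Pool.Agent.Helper8.UN.Stmts

/-! # MAINC: all `n` -/

set_option autoImplicit false

open Finset

namespace Pool.Agent.Helper8.UN

theorem st_MAINC (h : ST_MAIN) (hS : ST_STI) : ST_MAINC := by
  obtain ⟨n₀, h0⟩ := h
  have hl2 : 0 < Real.log 2 := Real.log_pos (by norm_num)
  have hl2' : Real.log 2 ≤ 1 := by linarith [Real.log_two_lt_d9]
  set N : ℝ := (n₀ : ℝ) + 1 with hN
  have hNpos : 0 < N := by positivity
  refine ⟨min (1 / 100000) (Real.log 2 / (2 * N)), max 2000 ((N + 1) / Real.log 2),
    lt_min (by norm_num) (by positivity), lt_of_lt_of_le (by norm_num) (le_max_left _ _), ?_⟩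
  intro n hn E hne hE
  have hn2 : (2 : ℝ) ≤ n := by exact_mod_cast hn
  have hlog : Real.log 2 ≤ Real.log n := Real.log_le_log (by norm_num) hn2
  have hlogpos : 0 < Real.log n := by linarith
  have hx : 0 ≤ (n : ℝ) / Real.log n := by positivity
  rcases Nat.lt_or_ge n n₀ with hlt | hge
  · apply hS n E
    rw [Finset.eq_empty_iff_forall_notMem]
    intro e he
    obtain ⟨v, hv⟩ := hne e he
    have h1 := hE v
    have hltR : (n : ℝ) ≤ N := by
      rw [hN]
      have : (n : ℝ) ≤ n₀ := by exact_mod_cast hlt.le
      linarith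
    have hmem : e ∈ E.filter (fun e => v ∈ e ∧
        (e.card : ℝ) < max 2000 ((N + 1) / Real.log 2) * Real.log n) := by
      rw [Finset.mem_filter]
      refine ⟨he, hv, ?_⟩
      have h2 : (e.card : ℝ) ≤ n := by
        have := Finset.card_le_univ e
        rw [Fintype.card_fin] at this
        exact_mod_cast this
      have h3 : N + 1 ≤ max 2000 ((N + 1) / Real.log 2) * Real.log n := by
        calc N + 1 = (N + 1) / Real.log 2 * Real.log 2 := by field_simp
          _ ≤ max 2000 ((N + 1) / Real.log 2) * Real.log n :=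
              mul_le_mul (le_max_right _ _) hlog hl2.le
                (le_trans (by norm_num) (le_max_left _ _))
      linarith
    have h4 : (1 : ℝ) ≤ ((E.filter (fun e => v ∈ e ∧
        (e.card : ℝ) < max 2000 ((N + 1) / Real.log 2) * Real.log n)).card : ℝ) := by
      exact_mod_cast Finset.card_pos.2 ⟨e, hmem⟩
    have h5 : min (1 / 100000) (Real.log 2 / (2 * N)) * ((n : ℝ) / Real.log n) ≤ 1 / 2 := by
      calc min (1 / 100000) (Real.log 2 / (2 * N)) * ((n : ℝ) / Real.log n)
          ≤ Real.log 2 / (2 * N) * (N / Real.log 2) := by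
            apply mul_le_mul (min_le_right _ _) _ hx (by positivity)
            exact div_le_div₀ hNpos.le hltR hl2 hlog
        _ = 1 / 2 := by field_simp
    linarith
  · apply h0 n hge E
    intro v
    have hsub : E.filter (fun e => v ∈ e ∧ (e.card : ℝ) < 2000 * Real.log n) ⊆
        E.filter (fun e => v ∈ e ∧
          (e.card : ℝ) < max 2000 ((N + 1) / Real.log 2) * Real.log n) := by
      intro e he
      rw [Finset.mem_filter] at he ⊢
      refine ⟨he.1, he.2.1, he.2.2.trans_le ?_⟩
      exact mul_le_mul_of_nonneg_right (le_max_left _ _) hlogpos.le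
    have h1 : ((E.filter (fun e => v ∈ e ∧ (e.card : ℝ) < 2000 * Real.log n)).card : ℝ) ≤
        ((E.filter (fun e => v ∈ e ∧
          (e.card : ℝ) < max 2000 ((N + 1) / Real.log 2) * Real.log n)).card : ℝ) := by
      exact_mod_cast Finset.card_le_card hsub
    refine h1.trans ((hE v).trans ?_)
    exact mul_le_mul_of_nonneg_right (min_le_left _ _) hx

end Pool.Agent.Helper8.UN
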