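import Pool.Agent.Helper11.UN.KAP
import Pool.Agent.Helper15.UN.POS
import Pool.Agent.Helper15.UN.SWP
import Pool.Agent.Helper18.UB.LNK
import Pool.Agent.Helper24.UN.CNT
import Pool.Agent.Helper30.UB.MRG
import Pool.Agent.Helper30.UN.STI
import Pool.Agent.Helper4.UN.WL1
import Pool.Agent.Helper41.UN.PTW
import Pool.Agent.Helper41.UN.WL2
import Pool.Agent.Helper47.UN.STA
import Pool.Agent.Helper49.UN.WL3
import Pool.Agent.Helper5.UN.B3N
import Pool.Agent.Helper5.UN.EXM
import Pool.Agent.Helper5.UN.F2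
import Pool.Agent.Helper51.UN.HSF
import Pool.Agent.Helper52.UN.BGC
import Pool.Agent.Helper52.UN.BKD
import Pool.Agent.Helper67.UB.AMG
import Pool.Agent.Helper67.UN.CHN
import Pool.Agent.Helper67.UN.H1
import Pool.Agent.Helper67.UN.ININ
import Pool.Agent.Helper67.UN.RAT
import Pool.Agent.Helper67.UN.SNG
import Pool.Agent.Helper67.UN.WL0
import Pool.Agent.Helper7.UN.H2
import Pool.Agent.Helper71.UN.SYM
import Pool.Agent.Helper71.UN.WLC
import Pool.Agent.Helper72.UN.QSW
import Pool.Agent.Helper79.UN.MON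
import Pool.Agent.Helper8.UN.F1
import Pool.Agent.Helper8.UN.MAIN
import Pool.Agent.Helper8.UN.MAINC
import Pool.Agent.Helper8.UN.UPC
import Pool.Agent.Helper8.UN.UPS
import Pool.Agent.Helper82.UN8.BKC
import Pool.Agent.Helper88.UN.BON
import Pool.Agent.Helper88.UN.HDF
import Pool.Agent.Helper88.UN.LNA
import Pool.Agent.Helper89.UB.INIT
import Pool.Agent.Helper89.UB.UNI
import Pool.Agent.Helper91.UN.FAR
import Pool.Agent.Helper95.UN.BL3
import Pool.Agent.Helper97.UN.DCM
import Pool.Agent.Helper97.UN.UPD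

/-! # Assembly -/

set_option autoImplicit false

namespace Pool.Agent.Helper8.UN

open Pool.Agent.Helper89

theorem all_UPS : ST_UPS := st_UPS st_UPC
theorem all_CNT : ST_CNT := st_CNT st_UPC all_UPS
theorem all_F1 : ST_F1 := st_F1 all_CNT
theorem all_SYM : ST_SYM := st_SYM st_F2
theorem all_EXM : ST_EXM := st_EXM all_F1 st_F2
theorem all_QSW : ST_QSW := st_QSW all_UPS
theorem all_MON : ST_MON := st_MON all_F1
theorem all_BGC : ST_BGC := st_BGC all_F1
theorem all_BL3 : ST_BL3 := st_BL3 all_MON all_BGC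
theorem all_POS : ST_POS := st_POS all_F1 st_F2
theorem all_RAT : ST_RAT := st_RAT all_CNT all_POS
theorem all_UPD : ST_UPD := st_UPD st_KAP
theorem all_SWP : ST_SWP := st_SWP all_UPD
theorem all_PTW : ST_PTW := st_PTW st_UPC all_UPS
theorem all_H1 : ST_H1 := st_H1 all_SWP all_PTW all_POS
theorem all_H2 : ST_H2 := st_H2 all_SWP all_PTW all_POS
theorem all_HDF : ST_HDF := st_HDF all_H1 st_BKC all_BL3 st_B3N st_BKD all_POS
theorem all_STA : ST_STA := st_STA all_HDF all_RAT all_EXM all_SYM st_F2 all_POS st_BKD st_B3N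
theorem all_SNG : ST_SNG := st_SNG all_QSW
theorem all_HSF : ST_HSF := st_HSF all_H2 st_BKC all_BL3 st_B3N st_BKD all_SNG all_POS
theorem all_CHN : ST_CHN := st_CHN all_RAT
theorem all_DCM : ST_DCM := st_DCM all_HSF all_CHN all_RAT all_F1 st_F2 all_POS st_B3N st_BKD
theorem all_FAR : ST_FAR := st_FAR all_F1 st_F2 all_POS st_B3N st_BKD
theorem all_WL2 : ST_WL2 := st_WL2 st_WL0 st_WL1
theorem all_WL3 : ST_WL3 := st_WL3 st_WL0 st_WL1
theorem all_WLC : ST_WLC := st_WLC all_WL2 all_WL3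
theorem all_MAIN : ST_MAIN := st_MAIN UB.st_LNK (UB.st_INIT UB.st_MRG UB.st_AMG) UB.st_UNI st_LNA
  all_STA st_BON st_WL1 all_WLC all_DCM all_FAR st_ININ
theorem all_MAINC : ST_MAINC := st_MAINC all_MAIN st_STI

end Pool.Agent.Helper8.UN
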