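import Pool.Agent.Helper89.UB.Stmts

/-!
# Unimodality for hypergraphs with at most `c n / log n` small edges at each vertex: definitions

Colourings of `W` are functions `Fin n → ℕ` with values in `1..k` on `W` and `0` outside `W`.
-/

set_option autoImplicit false

open Finset

namespace Pool.Agent.Helper8.UN

/-- no edge inside `W` is monochromatic -/
def Prp {n : ℕ} (E : Finset (Finset (Fin n))) (W : Finset (Fin n)) (f : Fin n → ℕ) : Prop :=
  ∀ e ∈ E, e ⊆ W → ∃ u ∈ e, ∃ v ∈ e, f u ≠ f v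

open scoped Classical in
/-- proper colourings of `W` with the colours `1..k` -/
noncomputable def CC {n : ℕ} (E : Finset (Finset (Fin n))) (W : Finset (Fin n)) (k : ℕ) :
    Finset (Fin n → ℕ) :=
  (Fintype.piFinset (fun v => if v ∈ W then Finset.Icc 1 k else {0})).filter (Prp E W)

open scoped Classical in
/-- proper colourings of `W` using all colours `1..k` -/
noncomputable def SS {n : ℕ} (E : Finset (Finset (Fin n))) (W : Finset (Fin n)) (k : ℕ) :
    Finset (Fin n → ℕ) :=
  (CC E W k).filter (fun f => ∀ i ∈ Finset.Icc 1 k, ∃ v ∈ W, f v = i)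

/-- number of proper colourings -/
noncomputable def PP {n : ℕ} (E : Finset (Finset (Fin n))) (W : Finset (Fin n)) (k : ℕ) : ℕ :=
  (CC E W k).card

/-- number of proper colourings using all colours -/
noncomputable def AA {n : ℕ} (E : Finset (Finset (Fin n))) (W : Finset (Fin n)) (k : ℕ) : ℕ :=
  (SS E W k).card

/-- the colour `i` is blocked at `y` -/
def Blk {n : ℕ} (E : Finset (Finset (Fin n))) (W : Finset (Fin n)) (f : Fin n → ℕ) (y : Fin n)
    (i : ℕ) : Prop := ∃ e ∈ E, e ⊆ W ∧ y ∈ e ∧ ∀ u ∈ e, u ≠ y → f u = i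

open scoped Classical in
/-- number of colours blocked at `y` -/
noncomputable def bk {n : ℕ} (E : Finset (Finset (Fin n))) (W : Finset (Fin n)) (k : ℕ)
    (f : Fin n → ℕ) (y : Fin n) : ℕ :=
  ((Finset.Icc 1 k).filter (fun i => Blk E W f y i)).card

open scoped Classical in
/-- number of colours blocked at `y` by an edge with at least three vertices -/
noncomputable def bl3 {n : ℕ} (E : Finset (Finset (Fin n))) (W : Finset (Fin n)) (k : ℕ)
    (f : Fin n → ℕ) (y : Fin n) : ℕ :=
  ((Finset.Icc 1 k).filter (fun i => ∃ e ∈ E, e ⊆ W ∧ y ∈ e ∧ 3 ≤ e.card ∧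
    ∀ u ∈ e, u ≠ y → f u = i)).card

/-- neighbours of `y` in `W` -/
def nb {n : ℕ} (E : Finset (Finset (Fin n))) (W : Finset (Fin n)) (y : Fin n) :
    Finset (Fin n) := W.filter (fun z => z ≠ y ∧ ({y, z} : Finset (Fin n)) ∈ E)

/-- all edges have at least two vertices -/
def Two {n : ℕ} (E : Finset (Finset (Fin n))) : Prop := ∀ e ∈ E, 2 ≤ e.card

/-- at most `D0` edges with fewer than `r` vertices at each vertex -/
def Deg {n : ℕ} (E : Finset (Finset (Fin n))) (D0 r : ℕ) : Prop :=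
  ∀ v : Fin n, (E.filter (fun e => v ∈ e ∧ e.card < r)).card ≤ D0

/-- at most `D` colours are blocked at a vertex -/
def BD {n : ℕ} (E : Finset (Finset (Fin n))) (D : ℕ) : Prop :=
  ∀ (W : Finset (Fin n)) (k : ℕ) (f : Fin n → ℕ) (y : Fin n), y ∈ W → bk E W k f y ≤ D

/-- average number of blocked colours at `v`, for colourings of `W` minus `v` -/
noncomputable def hh {n : ℕ} (E : Finset (Finset (Fin n))) (W : Finset (Fin n)) (k : ℕ)
    (v : Fin n) : ℝ := (∑ f ∈ CC E (W.erase v) k, (bk E W k f v : ℝ)) / PP E (W.erase v) k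

/-- the same for colourings using all colours -/
noncomputable def hs {n : ℕ} (E : Finset (Finset (Fin n))) (W : Finset (Fin n)) (k : ℕ)
    (v : Fin n) : ℝ := (∑ f ∈ SS E (W.erase v) k, (bk E W k f v : ℝ)) / AA E (W.erase v) k

/-! ### couplings -/

/-- total variation distance of the uniform measures on `A` and `B` -/
noncomputable def tv (A B : Finset ℕ) : ℝ :=
  1 - ((A ∩ B).card : ℝ) / ((max A.card B.card : ℕ) : ℝ)

/-- coupling of the uniform measures on `S` and `T` -/
structure Cpl {n : ℕ} (S T : Finset (Fin n → ℕ)) (ω : (Fin n → ℕ) → (Fin n → ℕ) → ℝ) : Prop where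
  nn : ∀ f g, 0 ≤ ω f g
  l : ∀ f ∈ S, ∑ g ∈ T, ω f g = 1 / (S.card : ℝ)
  r : ∀ g ∈ T, ∑ f ∈ S, ω f g = 1 / (T.card : ℝ)

/-- probability that the two colourings differ at `y` -/
noncomputable def pne {n : ℕ} (S T : Finset (Fin n → ℕ)) (ω : (Fin n → ℕ) → (Fin n → ℕ) → ℝ)
    (y : Fin n) : ℝ := ∑ f ∈ S, ∑ g ∈ T, if f y = g y then 0 else ω f g

open scoped Classical in
/-- values at `y` of the elements of `S` which agree with `f` outside `y` -/
noncomputable def fib {n : ℕ} (S : Finset (Fin n → ℕ)) (f : Fin n → ℕ) (y : Fin n) : Finset ℕ :=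
  (S.filter (fun f' => ∀ z, z ≠ y → f' z = f z)).image (fun f' => f' y)

/-! ### the regime -/

/-- the hypotheses on the hypergraph -/
structure Reg {n : ℕ} (D0 r : ℕ) (E : Finset (Finset (Fin n))) : Prop where
  two : Two E
  deg : Deg E D0 r
  d0 : (D0 : ℝ) ≤ 1 / 100000 * (n / Real.log n)
  r0 : 2000 * Real.log n ≤ r

/-- bound for the number of blocked colours -/
def DD (n D0 r : ℕ) : ℕ := D0 + n / (r - 1)

/-- expected number of unused colours -/
noncomputable def lam (p : ℕ → ℝ) (k : ℕ) : ℝ := k * p (k - 1) / p k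

/-- terms of the inclusion-exclusion sum -/
noncomputable def ff (p : ℕ → ℝ) (i m : ℕ) : ℝ := (m.choose i : ℝ) * p (m - i) / p m

/-- regularity of a sequence in the window -/
def Win (n : ℕ) (p : ℕ → ℝ) : Prop :=
  ∀ k : ℕ, 67 / 100 * ((n : ℝ) / Real.log n) ≤ k → (k : ℝ) ≤ 121 / 100 * (n / Real.log n) →
    0 < p (k - 1) ∧ 0 < p k ∧ 0 < p (k + 1) ∧
    (1 + 999 / 1000 * (n / ((k : ℝ) * (k + 1)))) * (p (k - 1) * p (k + 1)) ≤ p k ^ 2 ∧
    p k ^ 2 ≤ Real.exp (1004 / 1000 * (n / (k : ℝ) ^ 2)) * (p (k - 1) * p (k + 1))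

end Pool.Agent.Helper8.UN
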