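import Pool.Agent.Helper8.UN.Defs

/-!
# Unimodality for hypergraphs with at most `c n / log n` small edges at each vertex: statements
-/

set_option autoImplicit false

open Finset

namespace Pool.Agent.Helper8.UN

/-! ### counting -/

/-- recolouring one vertex -/
def ST_UPC : Prop := ∀ (n k : ℕ) (E : Finset (Finset (Fin n))) (W : Finset (Fin n))
  (f : Fin n → ℕ) (y : Fin n) (i : ℕ), Two E → y ∈ W →
  ((f ∈ CC E W k ∨ f ∈ CC E (W.erase y) k) →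
    (Function.update f y i ∈ CC E W k ↔ i ∈ Finset.Icc 1 k ∧ ¬ Blk E W f y i)) ∧
  (f ∈ CC E W k → Function.update f y 0 ∈ CC E (W.erase y) k)

/-- recolouring one vertex, all colours used -/
def ST_UPS : Prop := ∀ (n k : ℕ) (E : Finset (Finset (Fin n))) (W : Finset (Fin n))
  (f : Fin n → ℕ) (y : Fin n) (i : ℕ), Two E → y ∈ W →
  (f ∈ SS E W k → (∃ z ∈ W, z ≠ y ∧ f z = f y) →
    (Function.update f y i ∈ SS E W k ↔ i ∈ Finset.Icc 1 k ∧ ¬ Blk E W f y i) ∧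
    Function.update f y 0 ∈ SS E (W.erase y) k) ∧
  (f ∈ SS E W k → (∀ z ∈ W, z ≠ y → f z ≠ f y) →
    (Function.update f y i ∈ SS E W k ↔ i = f y)) ∧
  (f ∈ SS E (W.erase y) k →
    (Function.update f y i ∈ SS E W k ↔ i ∈ Finset.Icc 1 k ∧ ¬ Blk E W f y i))

/-- few colours are blocked -/
def ST_BKD : Prop := ∀ (n D0 r : ℕ) (E : Finset (Finset (Fin n))), Two E → 4 ≤ r →
  Deg E D0 r → BD E (DD n D0 r)

/-- adding one vertex -/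
def ST_CNT : Prop := ∀ (n k : ℕ) (E : Finset (Finset (Fin n))) (W : Finset (Fin n)) (v : Fin n),
  Two E → v ∈ W →
  PP E W k = ∑ f ∈ CC E (W.erase v) k, (k - bk E W k f v) ∧
  ∑ f ∈ SS E (W.erase v) k, (k - bk E W k f v) ≤ AA E W k

/-- adding a set of vertices -/
def ST_F1 : Prop := ∀ (n D k : ℕ) (E : Finset (Finset (Fin n))) (W U : Finset (Fin n)), Two E →
  BD E D → Disjoint W U →
  (k - D) ^ U.card * PP E W k ≤ PP E (W ∪ U) k ∧ PP E (W ∪ U) k ≤ k ^ U.card * PP E W k ∧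
  (k - D) ^ U.card * AA E W k ≤ AA E (W ∪ U) k

open scoped Classical in
/-- the class of the last colour -/
def ST_F2 : Prop := ∀ (n k : ℕ) (E : Finset (Finset (Fin n))) (W : Finset (Fin n)), Two E →
  PP E W (k + 1) = ∑ B ∈ W.powerset.filter (fun B => Pool.Agent.Helper89.UB.Al E B), PP E (W \ B) k ∧
  AA E W (k + 1) = ∑ B ∈ W.powerset.filter (fun B => B.Nonempty ∧ Pool.Agent.Helper89.UB.Al E B), AA E (W \ B) k

/-- colourings and ordered partitions -/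
def ST_LNA : Prop := ∀ (n k : ℕ) (E : Finset (Finset (Fin n))) (W : Finset (Fin n)), Two E →
  AA E W k = Pool.Agent.Helper89.UB.sur E W k

open scoped Classical in
/-- mean size of a class -/
def ST_SYM : Prop := ∀ (n k : ℕ) (E : Finset (Finset (Fin n))) (W : Finset (Fin n)), Two E →
  (k + 1) * ∑ B ∈ W.powerset.filter (fun B => Pool.Agent.Helper89.UB.Al E B), B.card * PP E (W \ B) k =
    W.card * PP E W (k + 1)

open scoped Classical in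
/-- exponential moment of the size of a class -/
def ST_EXM : Prop := ∀ (n D k : ℕ) (E : Finset (Finset (Fin n))) (W : Finset (Fin n)) (a : ℝ),
  Two E → BD E D → D < k + 1 → 0 ≤ a →
  ∑ B ∈ W.powerset.filter (fun B => Pool.Agent.Helper89.UB.Al E B), (PP E (W \ B) k : ℝ) * (1 + a) ^ B.card ≤
    PP E W (k + 1) * (1 + a / ((k : ℝ) + 1 - D)) ^ W.card

/-- Bonferroni inequalities -/
def ST_BON : Prop := ∀ (n m I : ℕ) (E : Finset (Finset (Fin n))) (W : Finset (Fin n)), Two E →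
  |(AA E W m : ℝ) - ∑ i ∈ Finset.range I, (-1) ^ i * ((m.choose i : ℝ) * PP E W (m - i))| ≤
    (m.choose I : ℝ) * PP E W (m - I)

open scoped Classical in
/-- few colourings have a given singleton class -/
def ST_QSW : Prop := ∀ (n D0 m : ℕ) (E : Finset (Finset (Fin n))) (W : Finset (Fin n))
  (y : Fin n), Two E → Deg E D0 4 → y ∈ W →
  ((SS E W m).filter (fun f => ∀ z ∈ W, z ≠ y → f z ≠ f y)).card *
    (W.card - (m + 2 * D0 + 2)) ^ 2 ≤ 2 * m ^ 2 * AA E W m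

open scoped Classical in
/-- two vertices have the same colour -/
def ST_MON : Prop := ∀ (n D k : ℕ) (E : Finset (Finset (Fin n))) (W : Finset (Fin n))
  (z z' : Fin n), Two E → BD E D → z ∈ W → z' ∈ W → z ≠ z' →
  (k - D) * ((CC E W k).filter (fun f => f z = f z')).card ≤ PP E W k ∧
  (k - D) * ((SS E W k).filter (fun f => f z = f z')).card ≤ AA E W k

open scoped Classical in
/-- large classes -/
def ST_BGC : Prop := ∀ (n D k s : ℕ) (E : Finset (Finset (Fin n))) (W : Finset (Fin n)), Two E →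
  BD E D → 1 ≤ s →
  (k - D) ^ (s - 1) * ((CC E W k).filter (fun f => ∃ i ∈ Finset.Icc 1 k,
    s ≤ (W.filter (fun v => f v = i)).card)).card ≤ n.choose s * PP E W k ∧
  (k - D) ^ (s - 1) * ((SS E W k).filter (fun f => ∃ i ∈ Finset.Icc 1 k,
    s ≤ (W.filter (fun v => f v = i)).card)).card ≤ n.choose s * AA E W k

/-- colours blocked by edges with at least three vertices -/
def ST_BL3 : Prop := ∀ (n D0 D r k : ℕ) (E : Finset (Finset (Fin n))) (W W' : Finset (Fin n))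
  (y : Fin n), Two E → BD E D → D < k → 4 ≤ r → Deg E D0 r → y ∈ W →
  (W' = W ∨ W' = W.erase y) →
  ∑ f ∈ CC E W' k, (bl3 E W k f y : ℝ) ≤ PP E W' k *
    (D0 / ((k : ℝ) - D) + n * n.choose (r - 1) / ((k : ℝ) - D) ^ (r - 2)) ∧
  ∑ f ∈ SS E W' k, (bl3 E W k f y : ℝ) ≤ AA E W' k *
    (D0 / ((k : ℝ) - D) + n * n.choose (r - 1) / ((k : ℝ) - D) ^ (r - 2))

/-- colourings exist -/
def ST_POS : Prop := ∀ (n D k : ℕ) (E : Finset (Finset (Fin n))) (W : Finset (Fin n)), Two E →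
  BD E D → D < k → 0 < PP E W k ∧ (k ≤ W.card → 0 < AA E W k)

/-- ratios -/
def ST_RAT : Prop := ∀ (n D k : ℕ) (E : Finset (Finset (Fin n))) (W : Finset (Fin n))
  (v : Fin n), Two E → BD E D → D < k → v ∈ W →
  (PP E W k : ℝ) = (k - hh E W k v) * PP E (W.erase v) k ∧ 0 ≤ hh E W k v ∧ hh E W k v ≤ D ∧
  (k - hs E W k v) * AA E (W.erase v) k ≤ AA E W k

/-! ### couplings -/

/-- optimal coupling of two uniform measures -/
def ST_KAP : Prop := ∀ A B : Finset ℕ, A.Nonempty → B.Nonempty → ∃ κ : ℕ → ℕ → ℝ,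
  (∀ i j, 0 ≤ κ i j) ∧ (∀ i ∈ A, ∑ j ∈ B, κ i j = 1 / (A.card : ℝ)) ∧
  (∀ j ∈ B, ∑ i ∈ A, κ i j = 1 / (B.card : ℝ)) ∧
  ∑ i ∈ A, ∑ j ∈ B, (if i = j then 0 else κ i j) ≤ tv A B

/-- updating one vertex -/
def ST_UPD : Prop := ∀ (n : ℕ) (S T : Finset (Fin n → ℕ)) (ω : (Fin n → ℕ) → (Fin n → ℕ) → ℝ)
  (y : Fin n), Cpl S T ω → S.Nonempty → T.Nonempty → ∃ ω' : (Fin n → ℕ) → (Fin n → ℕ) → ℝ,
  Cpl S T ω' ∧ (∀ z, z ≠ y → pne S T ω' z = pne S T ω z) ∧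
  pne S T ω' y ≤ ∑ f ∈ S, ∑ g ∈ T, ω f g * tv (fib S f y) (fib T g y)

/-- sweeps of updates -/
def ST_SWP : Prop := ∀ (n : ℕ) (S T : Finset (Fin n → ℕ)) (W : Finset (Fin n)) (α β : ℝ),
  S.Nonempty → T.Nonempty → 0 < α → 0 ≤ β → β ≤ 1 / 2 →
  (∀ y, y ∉ W → ∀ f ∈ S, ∀ g ∈ T, f y = g y) →
  (∀ ω : (Fin n → ℕ) → (Fin n → ℕ) → ℝ, Cpl S T ω → ∀ M : ℝ, (∀ z, pne S T ω z ≤ M) →
    ∀ y ∈ W, ∑ f ∈ S, ∑ g ∈ T, ω f g * tv (fib S f y) (fib T g y) ≤ α + β * M) →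
  ∃ ω : (Fin n → ℕ) → (Fin n → ℕ) → ℝ, Cpl S T ω ∧ ∀ z, pne S T ω z ≤ 3 * α

open scoped Classical in
/-- pointwise bounds -/
def ST_PTW : Prop := ∀ (n D k : ℕ) (E : Finset (Finset (Fin n))) (W : Finset (Fin n))
  (y : Fin n) (g : Fin n → ℕ), Two E → BD E D → D < k → y ∈ W → g ∈ CC E W k →
  (∀ (k' : ℕ) (f : Fin n → ℕ), (k' = k ∨ k' + 1 = k) → f ∈ CC E W k' →
    tv (fib (CC E W k') f y) (fib (CC E W k) g y) ≤
      (((k : ℝ) - k') + ((nb E W y).filter (fun z => f z ≠ g z)).card + bl3 E W k' f y +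
        bl3 E W k g y) / ((k : ℝ) - D)) ∧
  (∀ f : Fin n → ℕ, f ∈ SS E W k →
    tv (fib (SS E W k) f y) (fib (CC E W k) g y) ≤
      (if ∃ z ∈ W, z ≠ y ∧ f z = f y then 0 else 1) +
      (((nb E W y).filter (fun z => f z ≠ g z)).card + (bl3 E W k f y : ℝ) +
        bl3 E W k g y) / ((k : ℝ) - D))

/-- blocked colours of two colourings -/
def ST_BKC : Prop := ∀ (n k k' : ℕ) (E : Finset (Finset (Fin n))) (W : Finset (Fin n))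
  (y : Fin n) (f g : Fin n → ℕ), Two E → y ∈ W → f ∈ CC E (W.erase y) k' →
  g ∈ CC E (W.erase y) k →
  |(bk E W k' f y : ℝ) - bk E W k g y| ≤
    ((nb E W y).filter (fun z => f z ≠ g z)).card + bl3 E W k' f y + bl3 E W k g y

/-- colourings with `k-1` and with `k` colours -/
def ST_H1 : Prop := ∀ (n D0 D k : ℕ) (E : Finset (Finset (Fin n))) (W : Finset (Fin n)) (τ : ℝ),
  Two E → BD E D → D + 1 < k → 2 * D0 ≤ k - D → (∀ y ∈ W, (nb E W y).card ≤ D0) → 0 ≤ τ →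
  (∀ y ∈ W, ∑ f ∈ CC E W (k - 1), (bl3 E W (k - 1) f y : ℝ) ≤ PP E W (k - 1) * τ) →
  (∀ y ∈ W, ∑ f ∈ CC E W k, (bl3 E W k f y : ℝ) ≤ PP E W k * τ) →
  ∃ ω : (Fin n → ℕ) → (Fin n → ℕ) → ℝ, Cpl (CC E W (k - 1)) (CC E W k) ω ∧
    ∀ z, pne (CC E W (k - 1)) (CC E W k) ω z ≤ 3 * ((1 + 2 * τ) / ((k : ℝ) - D))

open scoped Classical in
/-- surjective colourings and colourings -/
def ST_H2 : Prop := ∀ (n D0 D k : ℕ) (E : Finset (Finset (Fin n))) (W : Finset (Fin n))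
  (τ q : ℝ), Two E → BD E D → D < k → 2 * D0 ≤ k - D → (∀ y ∈ W, (nb E W y).card ≤ D0) →
  0 < τ → 0 ≤ q → 0 < AA E W k →
  (∀ y ∈ W, ∑ f ∈ SS E W k, (bl3 E W k f y : ℝ) ≤ AA E W k * τ) →
  (∀ y ∈ W, ∑ f ∈ CC E W k, (bl3 E W k f y : ℝ) ≤ PP E W k * τ) →
  (∀ y ∈ W, (((SS E W k).filter (fun f => ∀ z ∈ W, z ≠ y → f z ≠ f y)).card : ℝ) ≤
    q * AA E W k) →
  ∃ ω : (Fin n → ℕ) → (Fin n → ℕ) → ℝ, Cpl (SS E W k) (CC E W k) ω ∧
    ∀ z, pne (SS E W k) (CC E W k) ω z ≤ 3 * (q + 2 * τ / ((k : ℝ) - D))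

/-! ### the regime -/

/-- sizes of the parameters -/
def ST_B3N : Prop := ∃ n₀ : ℕ, ∀ n ≥ n₀, ∀ D0 r k : ℕ,
  (D0 : ℝ) ≤ 1 / 100000 * (n / Real.log n) → 2000 * Real.log n ≤ r →
  65 / 100 * ((n : ℝ) / Real.log n) ≤ k →
  4 ≤ r ∧ 1000 * DD n D0 r ≤ k ∧ 10000 * D0 ≤ k ∧ 10000 ≤ k ∧
  0 < (D0 / ((k : ℝ) - DD n D0 r) +
    n * n.choose (r - 1) / ((k : ℝ) - DD n D0 r) ^ (r - 2)) + 1 / (n : ℝ) ∧
  (D0 / ((k : ℝ) - DD n D0 r) +
    n * n.choose (r - 1) / ((k : ℝ) - DD n D0 r) ^ (r - 2)) + 1 / (n : ℝ) ≤ 1 / 20000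

/-- the average number of blocked colours changes slowly -/
def ST_HDF : Prop := ∃ n₀ : ℕ, ∀ n ≥ n₀, ∀ (D0 r k : ℕ) (E : Finset (Finset (Fin n)))
  (W : Finset (Fin n)) (v : Fin n), Reg D0 r E → 66 / 100 * ((n : ℝ) / Real.log n) ≤ k →
  v ∈ W → |hh E W k v - hh E W (k - 1) v| ≤ 1 / 1000

/-- regularity of the numbers of colourings -/
def ST_STA : Prop := ∃ n₀ : ℕ, ∀ n ≥ n₀, ∀ (D0 r : ℕ) (E : Finset (Finset (Fin n))),
  Reg D0 r E → Win n (fun k => (PP E univ k : ℝ))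

open scoped Classical in
/-- singleton classes are rare -/
def ST_SNG : Prop := ∃ n₀ : ℕ, ∀ n ≥ n₀, ∀ (D0 r m : ℕ) (E : Finset (Finset (Fin n)))
  (W : Finset (Fin n)) (y : Fin n), Reg D0 r E → (m : ℝ) ≤ 125 / 100 * (n / Real.log n) →
  9 / 10 * (n : ℝ) ≤ W.card → y ∈ W →
  (((SS E W m).filter (fun f => ∀ z ∈ W, z ≠ y → f z ≠ f y)).card : ℝ) ≤
    5 / Real.log n ^ 2 * AA E W m

/-- average number of blocked colours for surjective colourings -/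
def ST_HSF : Prop := ∃ n₀ : ℕ, ∀ n ≥ n₀, ∀ (D0 r m : ℕ) (E : Finset (Finset (Fin n)))
  (W : Finset (Fin n)) (v : Fin n), Reg D0 r E → 66 / 100 * ((n : ℝ) / Real.log n) ≤ m →
  (m : ℝ) ≤ 125 / 100 * (n / Real.log n) → 91 / 100 * (n : ℝ) ≤ W.card → v ∈ W →
  hs E W m v ≤ hh E W m v + n / Real.log n ^ 3

/-- removing a set of vertices -/
def ST_CHN : Prop := ∀ (n D k : ℕ) (E : Finset (Finset (Fin n))) (W B : Finset (Fin n)) (θ : ℝ),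
  Two E → BD E D → D < k → B ⊆ W → 0 ≤ θ → θ ≤ 1 →
  (∀ (W' : Finset (Fin n)) (v : Fin n), W' ⊆ W → W \ B ⊆ W'.erase v → v ∈ W' →
    (1 - θ) * (k - hh E W' k v) ≤ k - hs E W' k v) →
  AA E (W \ B) k * (PP E W k * (1 - θ) ^ B.card) ≤ (AA E W k * PP E (W \ B) k : ℝ)

/-- the sequence decreases if there are many unused colours -/
def ST_DCM : Prop := ∃ n₀ : ℕ, ∀ n ≥ n₀, ∀ (D0 r m : ℕ) (E : Finset (Finset (Fin n))),
  Reg D0 r E → 67 / 100 * ((n : ℝ) / Real.log n) ≤ m → (m : ℝ) ≤ 121 / 100 * (n / Real.log n) →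
  11 / 10 * (PP E univ (m + 1) : ℝ) ≤ (m + 1) * PP E univ m →
  AA E univ (m + 1) ≤ (m + 1) * AA E univ m

/-- final segment -/
def ST_FAR : Prop := ∃ n₀ : ℕ, ∀ n ≥ n₀, ∀ (D0 r m : ℕ) (E : Finset (Finset (Fin n))),
  Reg D0 r E → 119 / 100 * ((n : ℝ) / Real.log n) ≤ m →
  AA E univ (m + 1) ≤ (m + 1) * AA E univ m

/-- initial segment, numerically -/
def ST_ININ : Prop := ∃ n₀ : ℕ, ∀ n ≥ n₀, ∀ m : ℕ,
  (m : ℝ) ≤ 69 / 100 * (n / Real.log n) → (m + 3) ^ m ≤ 2 ^ n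

/-! ### real analysis in the window -/

/-- terms of the inclusion-exclusion sum as products -/
def ST_WL0 : Prop := ∀ (p : ℕ → ℝ) (i m : ℕ), i ≤ m → (∀ j, j ≤ i → 0 < p (m - j)) →
  ff p i m = (∏ j ∈ Finset.range i, lam p (m - j)) / (i.factorial : ℝ)

/-- ratios of the expected numbers of unused colours -/
def ST_WL1 : Prop := ∃ n₀ : ℕ, ∀ n ≥ n₀, ∀ p : ℕ → ℝ, Win n p → ∀ m k : ℕ,
  68 / 100 * ((n : ℝ) / Real.log n) ≤ m → (m : ℝ) ≤ 120 / 100 * (n / Real.log n) →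
  (k : ℝ) ≤ m + 6 * Real.log n → (m : ℝ) ≤ k + 6 * Real.log n →
  0 < lam p k ∧ 0 < lam p (k + 1) ∧
  lam p k * Real.exp (998 / 1000 * (n / (m : ℝ) ^ 2)) ≤ lam p (k + 1) ∧
  lam p (k + 1) ≤ lam p k * Real.exp (1005 / 1000 * (n / (m : ℝ) ^ 2))

/-- second differences -/
def ST_WL2 : Prop := ∃ n₀ : ℕ, ∀ n ≥ n₀, ∀ p : ℕ → ℝ, Win n p → ∀ m i : ℕ,
  68 / 100 * ((n : ℝ) / Real.log n) ≤ m → (m : ℝ) ≤ 120 / 100 * (n / Real.log n) →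
  (i : ℝ) ≤ 4 * Real.log n →
  0 < ff p i m ∧
  |ff p i (m + 1) + ff p i (m - 1) - 2 * ff p i m| ≤
    9 / 1000 * (n / (m : ℝ) ^ 2) * ff p i m

/-- sizes of the terms -/
def ST_WL3 : Prop := ∃ n₀ : ℕ, ∀ n ≥ n₀, ∀ p : ℕ → ℝ, Win n p → ∀ m : ℕ,
  68 / 100 * ((n : ℝ) / Real.log n) ≤ m → (m : ℝ) ≤ 120 / 100 * (n / Real.log n) →
  lam p (m + 1) ≤ 11 / 10 →
  (∀ i m' : ℕ, (i : ℝ) ≤ 4 * Real.log n → m - 1 ≤ m' → m' ≤ m + 1 →
    0 < ff p i m' ∧ ff p i m' ≤ (11 / 10) ^ i / (i.factorial : ℝ)) ∧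
  (∀ m' : ℕ, m - 1 ≤ m' → m' ≤ m + 1 →
    21 / 100 ≤ 1 - ff p 1 m' + ff p 2 m' - ff p 3 m' - ff p 4 m') ∧
  (∀ m' : ℕ, m - 1 ≤ m' → m' ≤ m + 1 →
    ff p ⌊4 * Real.log n⌋₊ m' ≤ 1 / 4000 * (n / (m : ℝ) ^ 2))

/-- log-concavity in the window -/
def ST_WLC : Prop := ∃ n₀ : ℕ, ∀ n ≥ n₀, ∀ p a : ℕ → ℝ, Win n p →
  (∀ m I : ℕ, |a m - ∑ i ∈ Finset.range I, (-1) ^ i * ((m.choose i : ℝ) * p (m - i))| ≤
    (m.choose I : ℝ) * p (m - I)) →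
  ∀ m : ℕ, 68 / 100 * ((n : ℝ) / Real.log n) ≤ m → (m : ℝ) ≤ 120 / 100 * (n / Real.log n) →
  lam p (m + 1) ≤ 11 / 10 → 0 < a m ∧ m * (a (m - 1) * a (m + 1)) ≤ (m + 1) * a m ^ 2

/-! ### end -/

/-- hypergraphs without edges: Stirling numbers -/
def ST_STI : Prop := ∀ (n : ℕ) (E : Finset (Finset (Fin n))), E = ∅ → ∃ k : ℕ,
  (∀ i j : ℕ, 1 ≤ i → i ≤ j → j ≤ k →
    Pool.Agent.Helper89.UB.bc E i ≤ Pool.Agent.Helper89.UB.bc E j) ∧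
  (∀ i j : ℕ, k ≤ i → i ≤ j → j ≤ n →
    Pool.Agent.Helper89.UB.bc E j ≤ Pool.Agent.Helper89.UB.bc E i)

/-- the main theorem for large `n` -/
def ST_MAIN : Prop := ∃ n₀ : ℕ, ∀ n ≥ n₀, ∀ E : Finset (Finset (Fin n)),
  (∀ v : Fin n, ((E.filter (fun e => v ∈ e ∧ (e.card : ℝ) < 2000 * Real.log n)).card : ℝ) ≤
    1 / 100000 * (n / Real.log n)) →
    ∃ k : ℕ, (∀ i j : ℕ, 1 ≤ i → i ≤ j → j ≤ k → Pool.Agent.Helper89.UB.bc E i ≤ Pool.Agent.Helper89.UB.bc E j) ∧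
      (∀ i j : ℕ, k ≤ i → i ≤ j → j ≤ n → Pool.Agent.Helper89.UB.bc E j ≤ Pool.Agent.Helper89.UB.bc E i)

/-- the main theorem -/
def ST_MAINC : Prop := ∃ c C : ℝ, 0 < c ∧ 0 < C ∧ ∀ n : ℕ, 2 ≤ n →
  ∀ E : Finset (Finset (Fin n)), (∀ e ∈ E, e.Nonempty) →
  (∀ v : Fin n, ((E.filter (fun e => v ∈ e ∧ (e.card : ℝ) < C * Real.log n)).card : ℝ) ≤
    c * (n / Real.log n)) →
    ∃ k : ℕ, (∀ i j : ℕ, 1 ≤ i → i ≤ j → j ≤ k → Pool.Agent.Helper89.UB.bc E i ≤ Pool.Agent.Helper89.UB.bc E j) ∧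
      (∀ i j : ℕ, k ≤ i → i ≤ j → j ≤ n → Pool.Agent.Helper89.UB.bc E j ≤ Pool.Agent.Helper89.UB.bc E i)

end Pool.Agent.Helper8.UN
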